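import Pool.Agent.U445.Sh.Upper
import Pool.Agent.U445.Sh.BaseLarge

set_option autoImplicit false

/-!
# Six permutations shatter between `45/92` and `2/3` of all triples

(1) For all `n ≥ 3`: `45/92 ≤ F_3(n,6) ≤ (2n-1)/(3(n-2))`. (2) So `45/92 ≤ L_3 ≤ 2/3`.
(3) For all `2 ≤ k ≤ m, n`: `F_k(n,k!) ≥ F_k(m,k!) m(m-1)⋯(m-k+1)/(m^k-m)`, so that every value
`F_k(m,k!)` gives `L_k` up to the factor `1 - O(1/m)`.

Upper bound. Let `x` be a point. The six orders give each other point `a` a subset of `{1,..,6}` (the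
orders in which `a` comes before `x`). If `{x,a,b}` is shattered then the subsets of `a` and `b` have
three elements and meet in two. For 3-subsets `S, S'` the number `2|S∩S'| - 6[|S∩S'| = 2]` is at least the
scalar product of two sign vectors of length six (outer automorphism of `S_6`), so that summation over all
pairs gives `3 #{good pairs (a,b)} ≤ ∑_i (number of points before x in the order i)²`, and summation over
`x` gives `18 T ≤ n(n-1)(2n-1)` for the number `T` of shattered triples.

Lower bound. Iterated lexicographic products of a family of six orders of 23 points which shatters 990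
of the 1771 triples.
-/

namespace Pool.Agent.Results.MP_dc1b75_co.BoundsForTriples

open Finset Filter Topology

/-- The permutation `P` is the linear order `P 0, P 1, …` of the points, so that `x` comes before `y` if
`P⁻¹ x < P⁻¹ y`. The family `R` shatters `X` if every linear order of `X` (given by a function `f` which is
injective on `X`) is the restriction of an element of `R`. -/
def Shatters {n : ℕ} (R : Finset (Equiv.Perm (Fin n))) (X : Finset (Fin n)) : Prop :=
  ∀ f : Fin n → ℕ, Set.InjOn f X → ∃ P ∈ R, ∀ x ∈ X, ∀ y ∈ X, (P.symm x < P.symm y ↔ f x < f y)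

open Classical in
/-- the number of `k`-sets which `R` shatters -/
noncomputable def number {n : ℕ} (k : ℕ) (R : Finset (Equiv.Perm (Fin n))) : ℕ :=
  ((powersetCard k (univ : Finset (Fin n))).filter (Shatters R)).card

/-- `F_k(n,m)`, the largest proportion of `k`-sets shattered by a family of exactly `m` permutations -/
noncomputable def F (k n m : ℕ) : ℝ :=
  sSup {x : ℝ | ∃ R : Finset (Equiv.Perm (Fin n)), R.card = m ∧ x = (number k R : ℝ) / n.choose k}

theorem result :
    (∀ n : ℕ, 3 ≤ n → 45 / 92 ≤ F 3 n 6 ∧ F 3 n 6 ≤ (2 * n - 1) / (3 * (n - 2))) ∧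
    (∀ L : ℝ, Tendsto (fun n => F 3 n 6) atTop (𝓝 L) → 45 / 92 ≤ L ∧ L ≤ 2 / 3) ∧
    (∀ k m n : ℕ, 2 ≤ k → k ≤ m → k ≤ n →
      F k m k.factorial * m.descFactorial k / ((m : ℝ) ^ k - m) ≤ F k n k.factorial) := by
  have lo : ∀ n : ℕ, 3 ≤ n → (45 / 92 : ℝ) ≤ F 3 n 6 := by
    intro n hn
    have h := Pool.Agent.U445.Sh.Good.all (k := 3) (by norm_num) (m := 23) (by norm_num)
      Pool.Agent.U445.Sh.base2_good hn
    have h2 := Pool.Agent.U445.Sh.Rat.le_F (k := 3) (by simp [Nat.factorial]) hn h
    have e : (((990 : ℕ) : ℝ) * (Nat.factorial 3 : ℝ) / (((23 : ℕ) : ℝ) ^ 3 - ((23 : ℕ) : ℝ))) = 45 / 92 := by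
      norm_num [Nat.factorial]
    rw [e] at h2
    exact h2
  have up : ∀ n : ℕ, 3 ≤ n → F 3 n 6 ≤ (2 * n - 1) / (3 * (n - 2)) := by
    intro n hn
    have hn' : (3 : ℝ) ≤ n := by exact_mod_cast hn
    have hch : ((n.choose 3 : ℕ) : ℝ) * 6 = n * (n - 1) * (n - 2) := by
      have h1 := Nat.descFactorial_eq_factorial_mul_choose n 3
      obtain ⟨r, rfl⟩ : ∃ r, n = r + 3 := ⟨n - 3, by omega⟩
      have h2 : (r + 3).descFactorial 3 = (r + 1) * ((r + 2) * (r + 3)) := by
        simp [Nat.descFactorial_succ, Nat.descFactorial_zero]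
      rw [h2] at h1
      have h3 : ((((r + 1) * ((r + 2) * (r + 3)) : ℕ)) : ℝ) = ((Nat.factorial 3 * (r + 3).choose 3 : ℕ) : ℝ) := by
        exact_mod_cast h1
      push_cast [Nat.factorial] at h3 ⊢
      linarith
    have hpos : (0 : ℝ) < n.choose 3 := by exact_mod_cast Nat.choose_pos hn
    apply csSup_le
    · have h2 : 6 ≤ (univ : Finset (Equiv.Perm (Fin n))).card := by
        rw [card_univ, Fintype.card_perm, Fintype.card_fin]
        exact Nat.factorial_le hn
      obtain ⟨R, -, hR⟩ := exists_subset_card_eq h2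
      exact ⟨_, R, hR, rfl⟩
    · rintro x ⟨R, hR, rfl⟩
      have h := Pool.Agent.U445.Sh.upper R hR
      have h' : 18 * (number 3 R : ℝ) ≤ n * (n - 1) * (2 * n - 1) := by exact_mod_cast h
      rw [div_le_div_iff₀ hpos (by nlinarith)]
      nlinarith
  refine ⟨fun n hn => ⟨lo n hn, up n hn⟩, ?_, ?_⟩
  · intro L hL
    refine ⟨ge_of_tendsto hL ?_, ?_⟩
    · filter_upwards [eventually_ge_atTop 3] with n hn using lo n hn
    · have hlim : Tendsto (fun n : ℕ => (2 * (n : ℝ) - 1) / (3 * (n - 2))) atTop (𝓝 (2 / 3)) := by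
        have h1 : Tendsto (fun n : ℕ => (2 / 3 : ℝ) + (1 : ℝ) / ((n : ℝ) - 2)) atTop (𝓝 (2 / 3 + 0)) := by
          apply Tendsto.const_add
          have : Tendsto (fun n : ℕ => (n : ℝ) - 2) atTop atTop :=
            tendsto_atTop_add_const_right _ (-2) tendsto_natCast_atTop_atTop
          exact this.inv_tendsto_atTop.congr fun n => by simp [one_div]
        rw [add_zero] at h1
        refine h1.congr' ?_
        filter_upwards [eventually_ge_atTop 3] with n hn
        have hn' : (3 : ℝ) ≤ n := by exact_mod_cast hn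
        have : (n : ℝ) - 2 ≠ 0 := by linarith
        field_simp
        ring
      refine le_of_tendsto_of_tendsto hL hlim ?_
      filter_upwards [eventually_ge_atTop 3] with n hn using up n hn
  · intro k m n hk hm hn
    exact Pool.Agent.U445.Sh.main hk hm hn

end Pool.Agent.Results.MP_dc1b75_co.BoundsForTriples
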